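import Pool.Agent.Helper44.TOT.Defs

/-!
# TOT-S6: Chebyshev's bound, `∑ log l / l`, and `∑ 1 / l` over primes
-/

set_option autoImplicit false

open Finset

namespace Pool.Agent.Helper91.TOT

open Pool.Agent.Helper44.TOT

theorem card_primes (y : ℕ) : ((Icc 1 y).filter Nat.Prime).card = Nat.primeCounting y := by
  rw [Nat.primeCounting, Nat.primeCounting', Nat.count_eq_card_filter_range]
  congr 1
  ext l
  simp only [mem_filter, mem_Icc, mem_range]
  constructor
  · rintro ⟨⟨_, h⟩, hp⟩; exact ⟨by omega, hp⟩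
  · rintro ⟨h, hp⟩; exact ⟨⟨hp.one_le, by omega⟩, hp⟩

theorem log4_le : Real.log 4 ≤ 2 := by
  have h : Real.log 4 = 2 * Real.log 2 := by
    rw [show (4 : ℝ) = 2 ^ 2 by norm_num, Real.log_pow]; push_cast; ring
  rw [h]
  have := Real.log_two_lt_d9
  linarith

theorem cheb_six (y : ℕ) (hy : 2 ≤ y) :
    (((Icc 1 y).filter Nat.Prime).card : ℝ) ≤ 6 * (y / Real.log y) := by
  have hy1 : (1 : ℝ) < (y : ℝ) := by exact_mod_cast (by omega : 1 < y)
  have h := Chebyshev.pi_le_log4_mul_div (x := (y : ℝ)) hy1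
  rw [Nat.floor_natCast] at h
  rw [card_primes]
  have hlog : 0 < Real.log y := Real.log_pos hy1
  have hy0 : (0 : ℝ) < y := by linarith
  have hs0 : 0 < √(y : ℝ) := Real.sqrt_pos.mpr hy0
  have hls : Real.log √(y : ℝ) = Real.log y / 2 := Real.log_sqrt hy0.le
  have h1 : Real.log 4 * y / Real.log √(y : ℝ) ≤ 4 * (y / Real.log y) := by
    rw [hls]
    have : Real.log 4 * y / (Real.log y / 2) = (2 * Real.log 4) * (y / Real.log y) := by
      field_simp
    rw [this]
    have h4 := log4_le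
    have : 0 ≤ (y : ℝ) / Real.log y := by positivity
    nlinarith
  have h2 : √(y : ℝ) ≤ 2 * (y / Real.log y) := by
    have h3 : Real.log √(y : ℝ) ≤ √(y : ℝ) - 1 := Real.log_le_sub_one_of_pos hs0
    rw [hls] at h3
    rw [← mul_div_assoc, le_div_iff₀ hlog]
    have h5 : √(y : ℝ) * √(y : ℝ) = y := Real.mul_self_sqrt hy0.le
    nlinarith
  linarith

theorem cheb : Cheb := ⟨6, by norm_num, fun y hy => cheb_six y hy⟩

theorem split_half (T : ℕ) (f : ℕ → ℝ) :
    ∑ l ∈ (Icc 1 T).filter Nat.Prime, f l =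
      ∑ l ∈ (Icc 1 (T / 2)).filter Nat.Prime, f l +
      ∑ l ∈ (Ioc (T / 2) T).filter Nat.Prime, f l := by
  have h2 : T / 2 ≤ T := Nat.div_le_self T 2
  rw [← sum_union]
  · congr 1
    ext l
    simp only [mem_filter, mem_Icc, mem_union, mem_Ioc]
    constructor
    · rintro ⟨⟨h1, h3⟩, hp⟩
      by_cases h : l ≤ T / 2
      · exact Or.inl ⟨⟨h1, h⟩, hp⟩
      · exact Or.inr ⟨⟨by omega, h3⟩, hp⟩
    · rintro (⟨⟨h1, h3⟩, hp⟩ | ⟨⟨h1, h3⟩, hp⟩)
      · exact ⟨⟨h1, by omega⟩, hp⟩
      · exact ⟨⟨by omega, h3⟩, hp⟩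
  · rw [disjoint_left]
    intro l
    simp only [mem_filter, mem_Icc, mem_Ioc]
    rintro ⟨⟨_, h1⟩, _⟩ ⟨⟨h3, _⟩, _⟩
    omega

theorem half_lt {T l : ℕ} (h : T / 2 < l) : (T : ℝ) / 2 < l := by
  have : T < 2 * l := by omega
  have : (T : ℝ) < 2 * l := by exact_mod_cast this
  linarith

theorem log_half_le {T : ℕ} (hT : 2 ≤ T) :
    Real.log ((T / 2 : ℕ) : ℝ) ≤ Real.log T - Real.log 2 := by
  have hT0 : (0 : ℝ) < T := by exact_mod_cast (by omega : 0 < T)
  rw [← Real.log_div hT0.ne' (by norm_num)]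
  apply Real.log_le_log
  · exact_mod_cast (by omega : 0 < T / 2)
  · exact Nat.cast_div_le

theorem log_dyadic {T : ℕ} (hT : 2 ≤ T) :
    ∑ l ∈ (Ioc (T / 2) T).filter Nat.Prime, Real.log l / l ≤ 4 * Real.log 2 := by
  have hT0 : (0 : ℝ) < T := by exact_mod_cast (by omega : 0 < T)
  have h1 : ∑ l ∈ (Ioc (T / 2) T).filter Nat.Prime, Real.log l / l ≤
      ∑ l ∈ (Ioc (T / 2) T).filter Nat.Prime, Real.log l * (2 / T) := by
    apply sum_le_sum
    intro l hl
    simp only [mem_filter, mem_Ioc] at hl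
    have hl2 := half_lt hl.1.1
    have hl0 : (0 : ℝ) < l := by exact_mod_cast hl.2.pos
    rw [div_eq_mul_inv]
    apply mul_le_mul_of_nonneg_left _ (Real.log_natCast_nonneg l)
    rw [inv_eq_one_div, div_le_div_iff₀ hl0 hT0]
    linarith
  have h2 : ∑ l ∈ (Ioc (T / 2) T).filter Nat.Prime, Real.log l ≤ Chebyshev.theta T := by
    rw [Chebyshev.theta_eq_sum_primesLE_log]
    apply sum_le_sum_of_subset_of_nonneg
    · intro l hl
      simp only [mem_filter, mem_Ioc] at hl
      rw [Nat.mem_primesLE]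
      exact ⟨hl.1.2, hl.2⟩
    · intro l _ _
      exact Real.log_natCast_nonneg l
  have h3 := Chebyshev.theta_le_log4_mul_x (x := (T : ℝ)) hT0.le
  rw [← sum_mul] at h1
  have h4 : Real.log 4 = 2 * Real.log 2 := by
    rw [show (4 : ℝ) = 2 ^ 2 by norm_num, Real.log_pow]; push_cast; ring
  calc ∑ l ∈ (Ioc (T / 2) T).filter Nat.Prime, Real.log l / l
      ≤ (∑ l ∈ (Ioc (T / 2) T).filter Nat.Prime, Real.log l) * (2 / T) := h1
    _ ≤ (Real.log 4 * T) * (2 / T) := by
        apply mul_le_mul_of_nonneg_right (h2.trans h3)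
        positivity
    _ = 4 * Real.log 2 := by
        rw [h4]; field_simp; ring

theorem logSum_four (T : ℕ) (hT : 1 ≤ T) :
    ∑ l ∈ (Icc 1 T).filter Nat.Prime, Real.log l / l ≤ 4 * Real.log T := by
  induction T using Nat.strong_induction_on with
  | _ T ih =>
    by_cases h : T = 1
    · subst h
      have : (Icc 1 1).filter Nat.Prime = ∅ := by decide
      rw [this]; simp
    · have hT2 : 2 ≤ T := by omega
      rw [split_half]
      have h1 := ih (T / 2) (by omega) (by omega)
      have h2 := log_dyadic hT2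
      have h3 := log_half_le hT2
      linarith

theorem logSum : LogSum := ⟨4, by norm_num, fun T hT => logSum_four T (by omega)⟩

theorem recip_dyadic {T : ℕ} (hT : 2 ≤ T) :
    ∑ l ∈ (Ioc (T / 2) T).filter Nat.Prime, (1 : ℝ) / l ≤ 12 / Real.log T := by
  have hT0 : (0 : ℝ) < T := by exact_mod_cast (by omega : 0 < T)
  have h1 : ∑ l ∈ (Ioc (T / 2) T).filter Nat.Prime, (1 : ℝ) / l ≤
      ∑ l ∈ (Ioc (T / 2) T).filter Nat.Prime, (2 : ℝ) / T := by
    apply sum_le_sum
    intro l hl
    simp only [mem_filter, mem_Ioc] at hl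
    have hl2 := half_lt hl.1.1
    have hl0 : (0 : ℝ) < l := by exact_mod_cast hl.2.pos
    rw [div_le_div_iff₀ hl0 hT0]
    linarith
  rw [sum_const, nsmul_eq_mul] at h1
  have h2 : (((Ioc (T / 2) T).filter Nat.Prime).card : ℝ) ≤ ((Icc 1 T).filter Nat.Prime).card := by
    exact_mod_cast card_le_card (filter_subset_filter _ (fun l hl => by
      simp only [mem_Ioc] at hl; simp only [mem_Icc]; omega))
  have h3 := cheb_six T hT
  calc ∑ l ∈ (Ioc (T / 2) T).filter Nat.Prime, (1 : ℝ) / l
      ≤ (((Ioc (T / 2) T).filter Nat.Prime).card : ℝ) * (2 / T) := h1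
    _ ≤ (6 * (T / Real.log T)) * (2 / T) := by
        apply mul_le_mul_of_nonneg_right (h2.trans h3)
        positivity
    _ = 12 / Real.log T := by
        field_simp; ring

theorem recip_fifty (T : ℕ) (hT : 1 ≤ T) :
    ∑ l ∈ (Icc 1 T).filter Nat.Prime, (1 : ℝ) / l ≤ 50 * (1 + Real.log (1 + Real.log T)) := by
  induction T using Nat.strong_induction_on with
  | _ T ih =>
    by_cases h : T = 1
    · subst h
      have : (Icc 1 1).filter Nat.Prime = ∅ := by decide
      rw [this]; simp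
    · have hT2 : 2 ≤ T := by omega
      rw [split_half]
      have h1 := ih (T / 2) (by omega) (by omega)
      have h2 := recip_dyadic hT2
      have h3 := log_half_le hT2
      have hl2 := Real.log_two_gt_d9
      have hu : Real.log 2 ≤ Real.log T := by
        apply Real.log_le_log (by norm_num)
        exact_mod_cast hT2
      have hh0 : 0 ≤ Real.log ((T / 2 : ℕ) : ℝ) := Real.log_natCast_nonneg _
      set u := Real.log T with hud
      set v := Real.log ((T / 2 : ℕ) : ℝ) with hvd
      have hu0 : 0 < u := by linarith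
      -- log (1+u) - log (1+v) ≥ log 2 / (1+u)
      have h4 : Real.log (1 + v) ≤ Real.log (1 + u) - Real.log 2 / (1 + u) := by
        have h5 : Real.log ((1 + v) / (1 + u)) ≤ (1 + v) / (1 + u) - 1 :=
          Real.log_le_sub_one_of_pos (by positivity)
        rw [Real.log_div (by positivity) (by positivity)] at h5
        have h6 : (1 + v) / (1 + u) - 1 ≤ - (Real.log 2 / (1 + u)) := by
          rw [div_sub_one (by positivity), ← neg_div]
          apply div_le_div_of_nonneg_right _ (by positivity)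
          linarith
        linarith
      have h7 : 12 / u ≤ 50 * (Real.log 2 / (1 + u)) := by
        rw [← mul_div_assoc, div_le_div_iff₀ hu0 (by positivity)]
        nlinarith
      nlinarith

theorem recipPrime : RecipPrime := ⟨50, fun T hT => by
  have := recip_fifty T (by omega)
  exact_mod_cast this⟩

end Pool.Agent.Helper91.TOT
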